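import Pool.Agent.Lib_MP_27c196_co.F.F2
import Pool.Agent.Lib_MP_27c196_co.F.F3

/-! For every fixed `m` there is `c > 0` such that the side of an equilateral triangle which contains `(k+1)(k+2)/2 - m` points with
mutual distances at least `2` is at least `2k - exp(-ck)` for all large `k`. -/

set_option autoImplicit false

namespace Pool.Agent.Results.MP_27c196_co.ExponentiallySmallGap

theorem result (m : ℕ) : ∃ c : ℝ, 0 < c ∧ ∃ k₀ : ℕ, ∀ k : ℕ, k₀ ≤ k → ∀ s : ℝ,
    ∀ x y : Fin ((k + 1) * (k + 2) / 2 - m) → ℝ,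
      (∀ i, 0 ≤ y i ∧ y i ≤ Real.sqrt 3 * x i ∧ y i ≤ Real.sqrt 3 * (s - x i)) →
      (∀ i j, i ≠ j → 4 ≤ (x i - x j) ^ 2 + (y i - y j) ^ 2) →
      2 * (k : ℝ) - Real.exp (-(c * k)) ≤ s := by
  obtain ⟨c, hc, k0, hk0⟩ := H24.main_HE m
  refine ⟨c / 2, by positivity, k0 + m + 1 + ⌈2 / c⌉₊, fun k hk s x y hT hsep => ?_⟩
  have h1 : k + 1 ≤ (k + 1) * (k + 2) / 2 := by
    rw [Nat.le_div_iff_mul_le (by norm_num)]
    nlinarith
  have key := H24.main_xy (k := k) (m := m) (N := (k + 1) * (k + 2) / 2 - m) (by omega)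
    (hk0 k (by omega)) (by omega) x y hT hsep
  have h2 : 2 / c ≤ k := by
    refine (Nat.le_ceil _).trans ?_
    exact_mod_cast (by omega : ⌈2 / c⌉₊ ≤ k)
  have h3 : 2 ≤ c * k := by
    rw [div_le_iff₀ hc] at h2
    linarith
  have h4 : 2 ≤ Real.exp (c / 2 * k) := by
    have := Real.add_one_le_exp (c / 2 * k)
    nlinarith
  have h5 : 2 * Real.exp (-(c * k)) ≤ Real.exp (-(c / 2 * k)) := by
    have e : Real.exp (-(c / 2 * k)) = Real.exp (c / 2 * k) * Real.exp (-(c * k)) := by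
      rw [← Real.exp_add]
      congr 1
      ring
    rw [e]
    exact mul_le_mul_of_nonneg_right h4 (Real.exp_pos _).le
  linarith

end Pool.Agent.Results.MP_27c196_co.ExponentiallySmallGap
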